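import Pool.Agent.X328.NC.Final
import Pool.Agent.X328.NC.Fermat

/-! # Parametrizations of degree three of cubic fourfolds

No smooth cubic fourfold `X ⊂ ℙ⁵` is dominated by an affine or projective space of any dimension
through polynomials of degree at most three. Degree four is attained, even by birational
parametrizations: by all smooth cubic fourfolds with two disjoint planes, among them the Fermat cubic.

Idea of the proof of the first part. Restrict to four parameters; then the bound for the degree `δ` of
the map (ramification along the polars) gives `δ = 1`, so there is an inverse map. Choose a line on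
`X` which meets no plane on `X` and is not in the locus where the inverse is not defined. Following
the inverse along this line one finds a base point `b` of the system of cubics `G` such that the
values of the differential of `G` at `b` and a point of the line span a linear space on `X`. So these
values are in a line on `X` (or are a point, or zero), and the lines through `b` are mapped to
conics on `X` meeting this line, or to lines. Lines are impossible: `X` has no family of lines of odd
degree (the generic point is on no line `t u + w` with `t` transcendental over a field containing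
`u`, `w`, if the degree is odd). The projection of `X` from the line is a conic bundle, anisotropic over
the field of its base, and the residual intersections with it lead from conics to lines.

This plan and the reduction of the theorem to a number of statements (`no_cubic` of
`Pool.Agent.Y201.LI.Free`) are in the starting library; the statements left open there were proved by a
team: CONIC, AN, ANI2 (helper328), NET, INV (helper44), RIG, AVOID (helper288), ETA (helper1), ARC
(helper167). The second part counts the degrees in the classical map `ℙ² × ℙ² → X` of two disjoint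
planes.
-/

set_option autoImplicit false

namespace Pool.Agent.Results.MP_2619d0_ag.CubicParametrizations

open MvPolynomial

/-- `F` is a cubic form in six variables whose partial derivatives have no common zero besides the
origin: the cubic fourfold `F = 0` in `ℙ⁵` is smooth -/
def IsSmoothCubic (F : MvPolynomial (Fin 6) ℂ) : Prop :=
  F.IsHomogeneous 3 ∧ ∀ z : Fin 6 → ℂ, (∀ i, eval z (pderiv i F) = 0) → z = 0

/-- The tuple `G` of polynomials in `N` variables gives a dominant rational map to the
hypersurface `F = 0`: `F` vanishes at `G`, and every form vanishing at `G` is divisible by `F`. -/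
def Dominant {N : ℕ} (F : MvPolynomial (Fin 6) ℂ) (G : Fin 6 → MvPolynomial (Fin N) ℂ) : Prop :=
  aeval G F = 0 ∧ ∀ (e : ℕ) (H : MvPolynomial (Fin 6) ℂ), H.IsHomogeneous e →
    aeval G H = 0 → F ∣ H

/-- the degree of the map given by `G`: the degree of the field of rational functions
`ℂ(t_1, …, t_N)` over its subfield generated over `ℂ` by all ratios `G i / G j` -/
noncomputable def mapDegree {N : ℕ} (G : Fin 6 → MvPolynomial (Fin N) ℂ) : ℕ :=
  Module.finrank (IntermediateField.adjoin ℂ {z : FractionRing (MvPolynomial (Fin N) ℂ) |
    ∃ i j, z = algebraMap (MvPolynomial (Fin N) ℂ) (FractionRing (MvPolynomial (Fin N) ℂ)) (G i) /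
      algebraMap (MvPolynomial (Fin N) ℂ) (FractionRing (MvPolynomial (Fin N) ℂ)) (G j)})
    (FractionRing (MvPolynomial (Fin N) ℂ))

/-- the hypersurface `F = 0` contains two disjoint planes: `F` vanishes on two linear subspaces of
dimension `3` with intersection `0` -/
def HasTwoDisjointPlanes (F : MvPolynomial (Fin 6) ℂ) : Prop :=
  ∃ U W : Submodule ℂ (Fin 6 → ℂ), Module.finrank ℂ U = 3 ∧ Module.finrank ℂ W = 3 ∧
    Disjoint U W ∧ (∀ x ∈ U, eval x F = 0) ∧ ∀ x ∈ W, eval x F = 0

/-- **Parametrizations of smooth cubic fourfolds.** (1) Every dominant rational map from an affine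
or projective space to a smooth cubic fourfold has degree at least four (one of the polynomials which
give it has degree at least four). (2) A smooth cubic fourfold with two disjoint planes has a
birational parametrization by polynomials of degree at most four in four variables. (3) The Fermat
cubic is an example. -/
theorem result :
    (∀ F : MvPolynomial (Fin 6) ℂ, IsSmoothCubic F →
      ∀ (N : ℕ) (G : Fin 6 → MvPolynomial (Fin N) ℂ), Dominant F G →
        ∃ i, 4 ≤ (G i).totalDegree) ∧
    (∀ F : MvPolynomial (Fin 6) ℂ, IsSmoothCubic F → HasTwoDisjointPlanes F →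
      ∃ G : Fin 6 → MvPolynomial (Fin 4) ℂ, Dominant F G ∧ mapDegree G = 1 ∧
        (∀ i, (G i).totalDegree ≤ 4) ∧ ∃ i, (G i).totalDegree = 4) ∧
    (IsSmoothCubic (∑ i, X i ^ 3) ∧ HasTwoDisjointPlanes (∑ i, X i ^ 3)) := by
  have h1 : ∀ F : MvPolynomial (Fin 6) ℂ, IsSmoothCubic F →
      ∀ (N : ℕ) (G : Fin 6 → MvPolynomial (Fin N) ℂ), Dominant F G →
        ∃ i, 4 ≤ (G i).totalDegree := by
    intro F hF N G hG
    by_contra hcon
    push Not at hcon
    exact Pool.Agent.X328.NC.no_cubic_param F hF.1 hF.2 N G (fun i => Nat.le_of_lt_succ (hcon i))
      hG.1 hG.2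
  refine ⟨h1, ?_, ⟨Pool.Agent.X328.NC.Fermat.fermat_hom,
    Pool.Agent.X328.NC.Fermat.fermat_smooth⟩, ?_⟩
  · intro F hF hP
    obtain ⟨U, W, hU, hW, hd, hUF, hWF⟩ := hP
    let bU := Module.finBasisOfFinrankEq ℂ U hU
    let bW := Module.finBasisOfFinrankEq ℂ W hW
    have hv : LinearIndependent ℂ (fun j => (bU j : Fin 6 → ℂ)) :=
      bU.linearIndependent.map' U.subtype (Submodule.ker_subtype U)
    have hw : LinearIndependent ℂ (fun j => (bW j : Fin 6 → ℂ)) :=
      bW.linearIndependent.map' W.subtype (Submodule.ker_subtype W)
    have hli : LinearIndependent ℂ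
        (Sum.elim (fun j => (bU j : Fin 6 → ℂ)) (fun j => (bW j : Fin 6 → ℂ))) := by
      refine LinearIndependent.sum_type hv hw (hd.mono ?_ ?_)
      · rw [Submodule.span_le]
        rintro _ ⟨j, rfl⟩
        exact (bU j).2
      · rw [Submodule.span_le]
        rintro _ ⟨j, rfl⟩
        exact (bW j).2
    obtain ⟨G, hG4, hG1, hG2, hG3⟩ := Pool.Agent.X328.NC.Sharp.param hF.1 hF.2 hli
      (fun c => hUF _ (Submodule.sum_mem _ fun j _ => Submodule.smul_mem _ _ (bU j).2))
      (fun c => hWF _ (Submodule.sum_mem _ fun j _ => Submodule.smul_mem _ _ (bW j).2))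
    refine ⟨G, ⟨hG1, hG2⟩, ?_, hG4, ?_⟩
    · exact IntermediateField.finrank_eq_one_iff_eq_top.2 hG3
    · obtain ⟨i, hi⟩ := h1 F hF 4 G ⟨hG1, hG2⟩
      exact ⟨i, le_antisymm (hG4 i) hi⟩
  · obtain ⟨o, ho, ho1⟩ := Pool.Agent.X328.NC.Fermat.exists_omega
    have hli := Pool.Agent.X328.NC.Fermat.li ho1
    have hli' := linearIndependent_sum.1 hli
    simp only [Sum.elim_comp_inl, Sum.elim_comp_inr] at hli'
    refine ⟨Submodule.span ℂ (Set.range (Pool.Agent.X328.NC.Fermat.pl 1)),
      Submodule.span ℂ (Set.range (Pool.Agent.X328.NC.Fermat.pl o)), ?_, ?_, hli'.2.2, ?_, ?_⟩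
    · rw [finrank_span_eq_card hli'.1, Fintype.card_fin]
    · rw [finrank_span_eq_card hli'.2.1, Fintype.card_fin]
    · intro x hx
      obtain ⟨c, rfl⟩ := (Submodule.mem_span_range_iff_exists_fun ℂ).1 hx
      exact Pool.Agent.X328.NC.Fermat.eval_pl (by norm_num) c
    · intro x hx
      obtain ⟨c, rfl⟩ := (Submodule.mem_span_range_iff_exists_fun ℂ).1 hx
      exact Pool.Agent.X328.NC.Fermat.eval_pl ho c

end Pool.Agent.Results.MP_2619d0_ag.CubicParametrizations
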