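import Pool.Agent.X159.DP.Fin

/-! Rational parametrizations of smooth cubic hypersurfaces of dimension `n ≥ 5`: the degree is
bounded by the volume of a polytope which contains only the exponents of derivatives. Weighted
projective spaces and products of projective spaces. -/

set_option autoImplicit false

namespace Pool.Agent.Results.MP_2619d0_ag.DerivativePolytopes

open MvPolynomial

/-- The tuple `G` of polynomials in `N` variables gives a dominant rational map from affine
`N`-space to the hypersurface `F = 0`: `F` vanishes at `G`, and every form vanishing at `G` is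
divisible by `F`. -/
def Dominant {m N : ℕ} (F : MvPolynomial (Fin m) ℂ) (G : Fin m → MvPolynomial (Fin N) ℂ) : Prop :=
  aeval G F = 0 ∧ ∀ (e : ℕ) (H : MvPolynomial (Fin m) ℂ), H.IsHomogeneous e →
    aeval G H = 0 → F ∣ H

/-- the degree of the map given by `G`: the degree of the field of rational functions
`ℂ(t_1, …, t_n)` over its subfield generated over `ℂ` by all ratios `G i / G j`; if `G` is dominant,
then this subfield is the function field of the hypersurface -/
noncomputable def mapDegree {m n : ℕ} (G : Fin m → MvPolynomial (Fin n) ℂ) : ℕ :=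
  Module.finrank (IntermediateField.adjoin ℂ {z : FractionRing (MvPolynomial (Fin n) ℂ) |
    ∃ i j, z = algebraMap (MvPolynomial (Fin n) ℂ) (FractionRing (MvPolynomial (Fin n) ℂ)) (G i) /
      algebraMap (MvPolynomial (Fin n) ℂ) (FractionRing (MvPolynomial (Fin n) ℂ)) (G j)})
    (FractionRing (MvPolynomial (Fin n) ℂ))

/-- the hypersurface `F = 0` of dimension `n` is rational: it has a birational parametrization -/
def IsRational {n : ℕ} (F : MvPolynomial (Fin (n + 2)) ℂ) : Prop :=
  ∃ G : Fin (n + 2) → MvPolynomial (Fin n) ℂ, Dominant F G ∧ mapDegree G = 1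

/-- the map given by `G` with only `n` free parameters: the parameter `t_(g s)` is the new
variable number `s`, and every other parameter `t_l` gets the constant value `c l` -/
noncomputable def specialize {m n N : ℕ} (G : Fin m → MvPolynomial (Fin N) ℂ) (g : Fin n → Fin N)
    (c : Fin N → ℂ) : Fin m → MvPolynomial (Fin n) ℂ :=
  fun i => aeval (fun l : Fin N =>
    (C (c l) + ∑ s, if g s = l then X s else 0 : MvPolynomial (Fin n) ℂ)) (G i)

/-- The convex set `P` contains the exponents of `n + 1` independent derivatives of all monomials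
with exponents in `A`: the `n + 1` affine functions `a ↦ w i + ∑ c i l * a_l` are linearly
independent, and if the `i`-th one does not vanish at the exponent `a` in `A`, then `a + s i` is in
`P`. (The `i`-th derivative multiplies the monomial `t ^ a` by the value of the `i`-th affine
function at `a` and by `t ^ s i`; for instance `∂ / ∂ t_l` is given by the function `a ↦ a_l` and
the vector `- e_l`.) -/
def DerivativesIn {n : ℕ} (A : Set (Fin n →₀ ℕ)) (w : Option (Fin n) → ℂ)
    (c : Option (Fin n) → Fin n → ℂ) (s : Option (Fin n) → Fin n → ℤ) (P : Set (Fin n → ℝ)) :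
    Prop :=
  (LinearIndependent ℂ fun i => ((w i, c i) : ℂ × (Fin n → ℂ))) ∧
    ∀ i, ∀ a ∈ A, w i + ∑ l, c i l * (a l : ℂ) ≠ 0 → (fun l => (a l : ℝ) + s i l) ∈ P

/-- the volume of the polytope of the derivatives of multihomogeneous forms of multidegree `k`: the
variable number `l` belongs to the group number `κ l`; the polytope is given by the inequalities
`0 ≤ x_l`, `∑_{κ l = i} x_l ≤ k i`, and `∑ x_l ≤ (∑ k i) - 1`, where `i` runs through the groups of
the `n` variables -/
noncomputable def groupVol {n r : ℕ} (κ : Fin n → Fin r) (k : Fin r → ℕ) : ℝ :=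
  (MeasureTheory.volume {x : Fin n → ℝ | (∀ l, 0 ≤ x l) ∧ (∀ i, ∑ l with κ l = i, x l ≤ k i) ∧
    ∑ l, x l + 1 ≤ ∑ i ∈ Finset.univ.image κ, (k i : ℝ)}).toReal

/-- Let `X` be a smooth cubic hypersurface of dimension `n ≥ 5`.
(1) If polynomials in `n` variables with exponents in `A` give a dominant rational map to `X` and
the compact convex set `P` contains the exponents of `n + 1` independent derivatives of the
monomials with exponents in `A`, then the degree `δ` of the map satisfies `1 ≤ δ` and
`3 * 2 ^ n * δ ≤ (n + 1)! * Vol(P)`.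
(2) Weighted degrees. If polynomials in `N` variables `t_l` of weights `w l ≥ 1`, of weighted degree
at most `k`, give a dominant rational map to `X`, then there are `n` parameters `t_(g s)` and
constants for the other parameters such that the specialised map is dominant of degree `δ` with
`3 * 2 ^ n * δ * ∏ w (g s) ≤ (n + 1) (k - 1) ^ n`. If `(n + 1) (k - 1) ^ n < 6 * 2 ^ n ∏ w (g s)`
for every choice of `n` parameters, then `X` is rational.
(3) Products of projective spaces. If the `N` variables are divided into `r` groups, and polynomials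
of degree at most `k i ≥ 1` in the variables of the `i`-th group, for every `i`, give a dominant
rational map to `X`, then there are `n` parameters `t_(g s)` and constants for the other parameters
such that the specialised map is dominant of degree `δ` with `3 * 2 ^ n * δ ≤ (n + 1)! * V`, where
`V` is the volume of the polytope of the points whose coordinates are nonnegative, have sum at most
`k i` over the `i`-th group, and sum at most `∑ k i - 1`. -/
theorem result (n : ℕ) (hn : 5 ≤ n) (F : MvPolynomial (Fin (n + 2)) ℂ) (hF : F.IsHomogeneous 3)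
    (hsmooth : ∀ z : Fin (n + 2) → ℂ, (∀ i, eval z (pderiv i F) = 0) → z = 0) :
    (∀ (A : Set (Fin n →₀ ℕ)) (w : Option (Fin n) → ℂ) (c : Option (Fin n) → Fin n → ℂ)
      (s : Option (Fin n) → Fin n → ℤ) (P : Set (Fin n → ℝ)), Convex ℝ P → IsCompact P →
      DerivativesIn A w c s P → ∀ G : Fin (n + 2) → MvPolynomial (Fin n) ℂ,
      (∀ i, ∀ a ∈ (G i).support, a ∈ A) → Dominant F G → 1 ≤ mapDegree G ∧
        3 * 2 ^ n * (mapDegree G : ℝ) ≤ (n + 1).factorial * (MeasureTheory.volume P).toReal) ∧
    (∀ (N : ℕ) (w : Fin N → ℕ) (k : ℕ) (G : Fin (n + 2) → MvPolynomial (Fin N) ℂ),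
      (∀ l, 1 ≤ w l) → (∀ i, ∀ a ∈ (G i).support, ∑ l, w l * a l ≤ k) → Dominant F G →
      (∃ (g : Fin n → Fin N) (c : Fin N → ℂ), Function.Injective g ∧ (∀ s, c (g s) = 0) ∧
        Dominant F (specialize G g c) ∧ 1 ≤ mapDegree (specialize G g c) ∧
        3 * 2 ^ n * mapDegree (specialize G g c) * ∏ s, w (g s) ≤ (n + 1) * (k - 1) ^ n) ∧
      ((∀ g : Fin n → Fin N, Function.Injective g →
        (n + 1) * (k - 1) ^ n < 6 * 2 ^ n * ∏ s, w (g s)) → IsRational F)) ∧
    (∀ (N r : ℕ) (κ : Fin N → Fin r) (k : Fin r → ℕ) (G : Fin (n + 2) → MvPolynomial (Fin N) ℂ),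
      (∀ i, 1 ≤ k i) → (∀ j, ∀ a ∈ (G j).support, ∀ i, ∑ l with κ l = i, a l ≤ k i) →
      Dominant F G →
      (∃ (g : Fin n → Fin N) (c : Fin N → ℂ), Function.Injective g ∧ (∀ s, c (g s) = 0) ∧
        Dominant F (specialize G g c) ∧ 1 ≤ mapDegree (specialize G g c) ∧
        3 * 2 ^ n * (mapDegree (specialize G g c) : ℝ) ≤
          (n + 1).factorial * groupVol (fun s => κ (g s)) k) ∧
      ((∀ g : Fin n → Fin N, Function.Injective g →
        (n + 1).factorial * groupVol (fun s => κ (g s)) k < 6 * 2 ^ n) → IsRational F)) := by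
  refine ⟨?_, ?_, ?_⟩
  · intro A w c s P hPc hP hA G hG hdom
    obtain ⟨h1, h2⟩ := Pool.Agent.X159.DP.shift_bound (n := n) (d := 3) (by norm_num) F hF hsmooth
      w c s (Pool.Agent.X159.DP.ind_of hA.1) hPc hP A hA.2 G hG hdom.1 hdom.2
    have h5 : 0 < Module.finrank (Pool.Agent.TH314.PD.ratioField fun i =>
        algebraMap (MvPolynomial (Fin n) ℂ) (FractionRing (MvPolynomial (Fin n) ℂ)) (G i))
        (FractionRing (MvPolynomial (Fin n) ℂ)) := Module.finrank_pos
    refine ⟨h5, ?_⟩
    have h6 : (mapDegree G : ℝ) * (3 * (3 - 1) ^ n : ℕ) ≤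
        (n + 1).factorial * (MeasureTheory.volume P).toReal := h2
    push_cast at h6
    linarith
  · intro N w k G hw hG hdom
    obtain ⟨c, g, hg, hc, h1, h2, h3, h4⟩ := Pool.Agent.X159.DP.weight_param (n := n) (d := 3)
      (by norm_num) F hF hsmooth w hw k G hG hdom.1 hdom.2
    have h5 : 0 < Module.finrank (Pool.Agent.TH314.PD.ratioField fun i =>
        algebraMap (MvPolynomial (Fin n) ℂ) (FractionRing (MvPolynomial (Fin n) ℂ))
          (aeval (Pool.Agent.Y196.Sp.spc c g) (G i))) (FractionRing (MvPolynomial (Fin n) ℂ)) :=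
      Module.finrank_pos
    have h6 : mapDegree (specialize G g c) * (3 * 2 ^ n) * ∏ s, w (g s) ≤
        (n + 1) * (k - 1) ^ n := h4
    have h7 : 1 ≤ mapDegree (specialize G g c) := h5
    refine ⟨⟨g, c, hg, hc, ⟨h1, h2⟩, h7, ?_⟩, fun hlt => ⟨specialize G g c, ⟨h1, h2⟩, ?_⟩⟩
    · rw [mul_comm (3 * 2 ^ n)]
      exact h6
    · have h8 := hlt g hg
      have h9 : mapDegree (specialize G g c) * (3 * 2 ^ n * ∏ s, w (g s)) <
          2 * (3 * 2 ^ n * ∏ s, w (g s)) := by
        calc mapDegree (specialize G g c) * (3 * 2 ^ n * ∏ s, w (g s)) =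
            mapDegree (specialize G g c) * (3 * 2 ^ n) * ∏ s, w (g s) := by ring
          _ ≤ (n + 1) * (k - 1) ^ n := h6
          _ < 6 * 2 ^ n * ∏ s, w (g s) := h8
          _ = 2 * (3 * 2 ^ n * ∏ s, w (g s)) := by ring
      have h10 := lt_of_mul_lt_mul_right h9 (Nat.zero_le _)
      omega
  · intro N r κ k G hk hG hdom
    obtain ⟨c, g, hg, hc, h1, h2, h3, h4⟩ := Pool.Agent.X159.DP.group_param (n := n) (d := 3)
      (by omega) (by norm_num) F hF hsmooth κ k hk G hG hdom.1 hdom.2
    have h5 : 0 < Module.finrank (Pool.Agent.TH314.PD.ratioField fun i =>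
        algebraMap (MvPolynomial (Fin n) ℂ) (FractionRing (MvPolynomial (Fin n) ℂ))
          (aeval (Pool.Agent.Y196.Sp.spc c g) (G i))) (FractionRing (MvPolynomial (Fin n) ℂ)) :=
      Module.finrank_pos
    have h6 : (mapDegree (specialize G g c) : ℝ) * (3 * (3 - 1) ^ n : ℕ) ≤
        (n + 1).factorial * groupVol (fun s => κ (g s)) k := h4
    have h7 : 1 ≤ mapDegree (specialize G g c) := h5
    have h8 : 3 * 2 ^ n * (mapDegree (specialize G g c) : ℝ) ≤
        (n + 1).factorial * groupVol (fun s => κ (g s)) k := by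
      push_cast at h6
      linarith
    refine ⟨⟨g, c, hg, hc, ⟨h1, h2⟩, h7, h8⟩, fun hlt => ⟨specialize G g c, ⟨h1, h2⟩, ?_⟩⟩
    have h9 := hlt g hg
    have h10 : (mapDegree (specialize G g c) : ℝ) < 2 := by
      by_contra hcon
      push Not at hcon
      have hpos : (0 : ℝ) < 3 * 2 ^ n := by positivity
      have h11 := mul_le_mul_of_nonneg_left hcon hpos.le
      linarith
    have h11 : mapDegree (specialize G g c) < 2 := by exact_mod_cast h10
    omega

end Pool.Agent.Results.MP_2619d0_ag.DerivativePolytopes
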