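import Pool.Agent.X328.FD.Final

/-! # Fields of definition of parametrizations of very general cubic hypersurfaces

Let `k` be a subfield of `ℂ`, let `f` be a cubic form and `ℓ ≠ 0` a linear form in `n + 2`
variables with coefficients in `k`, let `a_0, …, a_(n+1)` be complex numbers which are
algebraically independent over `k`, and let `X` be the cubic hypersurface `f + ℓ ∑ a_i x_i² = 0` of
dimension `n ≥ 1`. If a dominant rational map of degree `δ` from `𝔸^(n+s)` to `X × 𝔸^s` is
given by polynomials and quotients of polynomials with coefficients in a subfield `K' ⊂ ℂ`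
containing `k(a)`, then `δ · [K' : k(a)]` is even. Every cubic form is of this shape, with
`ℓ = x_0` and `a_i` the coefficient of `x_0 x_i²`.

Idea of the proof. Let `τ` be a new variable and `b_i = τ a_i`, so that `X` is
`τ f + ℓ ∑ b_i x_i² = 0`, and let `(1 : Y)` be the generic point of `X`. Then
`γ = b_0 + ∑ b_i Y_i²` is transcendental over `k(b_1, …, b_(n+1), Y, u)`, and
`δ · [K' : k(a)]` is the sum of the degrees of the residue fields, with multiplicities, of the places
`γ = 0` of the field `K'(t, τ)`. At such a place the generic point reduces to the quadric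
`∑ b_i x_i² = 0`. Join it by a rational curve on `X` to a point of `X` over `K'`. Either the
reduction of the latter is on the quadric, or the reduction of the curve has a point on the quadric
and on `ℓ = 0`; in both cases the residue field has even degree, since the quadric is generic.
-/

set_option autoImplicit false

namespace Pool.Agent.Results.MP_2619d0_ag.FieldOfDefinition

open MvPolynomial

/-- all coefficients of the polynomial `p` are in the subfield `K` -/
def DefinedOver {m : ℕ} (K : Subfield ℂ) (p : MvPolynomial (Fin m) ℂ) : Prop :=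
  ∀ α, p.coeff α ∈ K

/-- The tuple `G` of polynomials in `N` variables gives a dominant rational map to the
hypersurface `F = 0`: `F` vanishes at `G`, and every form vanishing at `G` is divisible by `F`. -/
def Dominant {m N : ℕ} (F : MvPolynomial (Fin m) ℂ) (G : Fin m → MvPolynomial (Fin N) ℂ) : Prop :=
  aeval G F = 0 ∧ ∀ (e : ℕ) (H : MvPolynomial (Fin m) ℂ), H.IsHomogeneous e →
    aeval G H = 0 → F ∣ H

/-- the degree of the rational map from `𝔸^N` to `X × 𝔸^s` given by `G` and by the rational
functions `P_j / Q_j`: the degree of the field of rational functions `ℂ(t_1, …, t_N)` over its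
subfield generated over `ℂ` by all `G i / G j` and all `P j / Q j` (`0` if it is infinite) -/
noncomputable def mapDegree {m N s : ℕ} (G : Fin m → MvPolynomial (Fin N) ℂ)
    (P Q : Fin s → MvPolynomial (Fin N) ℂ) : ℕ :=
  Module.finrank (IntermediateField.adjoin ℂ ({z : FractionRing (MvPolynomial (Fin N) ℂ) |
    ∃ i j, z = algebraMap (MvPolynomial (Fin N) ℂ) (FractionRing (MvPolynomial (Fin N) ℂ)) (G i) /
      algebraMap (MvPolynomial (Fin N) ℂ) (FractionRing (MvPolynomial (Fin N) ℂ)) (G j)} ∪
    Set.range fun j =>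
      algebraMap (MvPolynomial (Fin N) ℂ) (FractionRing (MvPolynomial (Fin N) ℂ)) (P j) /
      algebraMap (MvPolynomial (Fin N) ℂ) (FractionRing (MvPolynomial (Fin N) ℂ)) (Q j)))
    (FractionRing (MvPolynomial (Fin N) ℂ))

/-- the degree `[K' : k(a)]` (`0` if it is infinite), for `a_i ∈ K'` -/
noncomputable def extensionDegree {m : ℕ} (k : Subfield ℂ) (a : Fin m → ℂ)
    (K' : IntermediateField k ℂ) : ℕ :=
  (IntermediateField.adjoin k (Set.range a)).relfinrank K'

/-- the hypersurface `X = (F = 0)` of dimension `n` is stably rational over `K'`: for some `s` there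
is a birational map from `𝔸^(n+s)` to `X × 𝔸^s` defined over `K'` (for `s = 0`: a
birational parametrization of `X`) -/
def StablyRationalOver {n : ℕ} (K' : Subfield ℂ) (F : MvPolynomial (Fin (n + 2)) ℂ) : Prop :=
  ∃ (s : ℕ) (G : Fin (n + 2) → MvPolynomial (Fin (n + s)) ℂ)
    (P Q : Fin s → MvPolynomial (Fin (n + s)) ℂ),
    (∀ i, DefinedOver K' (G i)) ∧ (∀ j, DefinedOver K' (P j)) ∧ (∀ j, DefinedOver K' (Q j)) ∧
      Dominant F G ∧ mapDegree G P Q = 1

/-- The main property of `X = (F = 0)`, `dim X = n`: for every subfield `K'` of `ℂ` containing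
`k(a)` and every dominant rational map of degree `δ` from `𝔸^(n+s)` to `X × 𝔸^s` defined over `K'`
the product `[K' : k(a)] · δ` is even; in particular `X` is not stably rational over `K'` if
`[K' : k(a)]` is odd. -/
def OnlyEven {n : ℕ} (k : Subfield ℂ) (a : Fin (n + 2) → ℂ)
    (F : MvPolynomial (Fin (n + 2)) ℂ) : Prop :=
  ∀ K' : IntermediateField k ℂ, (∀ i, a i ∈ K') →
    (∀ (s : ℕ) (G : Fin (n + 2) → MvPolynomial (Fin (n + s)) ℂ)
      (P Q : Fin s → MvPolynomial (Fin (n + s)) ℂ), (∀ i, DefinedOver K'.toSubfield (G i)) →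
      (∀ j, DefinedOver K'.toSubfield (P j)) → (∀ j, DefinedOver K'.toSubfield (Q j)) →
      Dominant F G → Even (extensionDegree k a K' * mapDegree G P Q)) ∧
    (Odd (extensionDegree k a K') → ¬ StablyRationalOver K'.toSubfield F)

theorem onlyEven_of {n : ℕ} (hn : 1 ≤ n) (k : Subfield ℂ) (f l : MvPolynomial (Fin (n + 2)) ℂ)
    (hf : f.IsHomogeneous 3) (hl : l.IsHomogeneous 1) (hl0 : l ≠ 0) (hfk : DefinedOver k f)
    (hlk : DefinedOver k l) (a : Fin (n + 2) → ℂ) (ha : AlgebraicIndependent k a) :
    OnlyEven k a (f + l * ∑ i, C (a i) * X i ^ 2) := by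
  intro K' haK
  have main : ∀ (s : ℕ) (G : Fin (n + 2) → MvPolynomial (Fin (n + s)) ℂ)
      (P Q : Fin s → MvPolynomial (Fin (n + s)) ℂ), (∀ i, DefinedOver K'.toSubfield (G i)) →
      (∀ j, DefinedOver K'.toSubfield (P j)) → (∀ j, DefinedOver K'.toSubfield (Q j)) →
      Dominant (f + l * ∑ i, C (a i) * X i ^ 2) G →
      Even (extensionDegree k a K' * mapDegree G P Q) := by
    intro s G P Q hG hP hQ hdom
    exact even_iff_two_dvd.2 (Pool.Agent.X328.FD.final_div hn (by norm_num) le_rfl k
      (c := 1) (e := 2) hf hl hl0 hfk hlk a ha K' haK G hG P Q hP hQ hdom.1 hdom.2)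
  refine ⟨main, ?_⟩
  rintro hodd ⟨s, G, P, Q, hG, hP, hQ, hdom, hdeg⟩
  have h1 := main s G P Q hG hP hQ hdom
  rw [hdeg, mul_one] at h1
  exact (Nat.not_even_iff_odd.2 hodd) h1

/-- the exponent of the monomial `x_0 x_i²` in `n + 2` variables `x_0, …, x_(n+1)` -/
noncomputable def expo {n : ℕ} (i : Fin (n + 2)) : Fin (n + 2) →₀ ℕ :=
  Finsupp.single 0 1 + Finsupp.single i 2

theorem expo_injective {n : ℕ} : Function.Injective (expo : Fin (n + 2) → _) := by
  intro i j h
  have h1 : Finsupp.single i 2 = Finsupp.single j 2 := add_left_cancel h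
  exact (Finsupp.single_left_inj (by norm_num)).1 h1

theorem coeff_part {n : ℕ} (a : Fin (n + 2) → ℂ) (α : Fin (n + 2) →₀ ℕ) :
    (X 0 * ∑ i, C (a i) * X i ^ 2 : MvPolynomial (Fin (n + 2)) ℂ).coeff α =
      ∑ i, if expo i = α then a i else 0 := by
  classical
  rw [Finset.mul_sum, coeff_sum]
  refine Finset.sum_congr rfl fun i _ => ?_
  have h1 : (X 0 * (C (a i) * X i ^ 2) : MvPolynomial (Fin (n + 2)) ℂ) =
      monomial (expo i) (a i) := by
    rw [X_pow_eq_monomial, X, C_mul_monomial, monomial_mul, expo, one_mul, mul_one]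
  rw [h1, coeff_monomial]

/-- **Odd-degree parametrizations of cubic hypersurfaces of dimension `n ≥ 1` and their fields of
definition.** Let `k` be a subfield of `ℂ`.
(1) Let `f` be a cubic form and `l ≠ 0` a linear form in `n + 2` variables with coefficients in
`k`, let `a_0, …, a_(n+1)` be algebraically independent over `k`, and let `X` be the cubic
`f + l * ∑ a_i x_i² = 0`. For every subfield `K'` of `ℂ` containing `k(a)` and every dominant
rational map of degree `δ` from `𝔸^(n+s)` to `X × 𝔸^s` defined over `K'`, the product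
`[K' : k(a)] · δ` is even (if both are finite); `X` is not stably rational over any `K'` of odd
degree over `k(a)`.
(2) The same holds for every cubic form `F` all of whose coefficients besides those of the
monomials `x_0 x_i²` are in `k`, if these `n + 2` coefficients `a_i` are algebraically independent
over `k`. (For the very general cubic one can take for `k` the algebraic closure of the field
generated by the other coefficients.) -/
theorem result :
    (∀ (n : ℕ), 1 ≤ n → ∀ (k : Subfield ℂ) (f l : MvPolynomial (Fin (n + 2)) ℂ),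
      f.IsHomogeneous 3 → l.IsHomogeneous 1 → l ≠ 0 → DefinedOver k f → DefinedOver k l →
      ∀ a : Fin (n + 2) → ℂ, AlgebraicIndependent k a →
        OnlyEven k a (f + l * ∑ i, C (a i) * X i ^ 2)) ∧
    (∀ (n : ℕ), 1 ≤ n → ∀ (k : Subfield ℂ) (F : MvPolynomial (Fin (n + 2)) ℂ),
      F.IsHomogeneous 3 →
      (∀ α : Fin (n + 2) →₀ ℕ,
        (∀ i : Fin (n + 2), α ≠ expo i) → F.coeff α ∈ k) →
      AlgebraicIndependent k (fun i : Fin (n + 2) => F.coeff (expo i)) →
      OnlyEven k (fun i : Fin (n + 2) => F.coeff (expo i)) F) := by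
  classical
  refine ⟨fun n hn k f l hf hl hl0 hfk hlk a ha => onlyEven_of hn k f l hf hl hl0 hfk hlk a ha,
    fun n hn k F hF hk ha => ?_⟩
  set a : Fin (n + 2) → ℂ := fun i => F.coeff (expo i) with hadef
  have hq : (∑ i, C (a i) * X i ^ 2 : MvPolynomial (Fin (n + 2)) ℂ).IsHomogeneous 2 :=
    Pool.Agent.X328.FD.sum_form a
  have h1 := onlyEven_of hn k (F - X 0 * ∑ i, C (a i) * X i ^ 2) (X 0)
    (hF.sub ((isHomogeneous_X ℂ 0).mul hq)) (isHomogeneous_X ℂ 0) (X_ne_zero 0) ?_ ?_ a ha
  · rw [sub_add_cancel] at h1
    exact h1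
  · intro α
    rw [coeff_sub, coeff_part]
    by_cases hα : ∃ i, α = expo i
    · obtain ⟨i, rfl⟩ := hα
      rw [Finset.sum_eq_single i]
      · rw [if_pos rfl]
        have h2 : F.coeff (expo i) = a i := rfl
        rw [h2, sub_self]
        exact zero_mem _
      · intro j _ hj
        rw [if_neg fun h => hj (expo_injective h)]
      · intro h
        exact absurd (Finset.mem_univ _) h
    · push Not at hα
      rw [Finset.sum_eq_zero fun i _ => if_neg fun h => hα i h.symm, sub_zero]
      exact hk α hα
  · intro α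
    rw [MvPolynomial.coeff_X]
    split_ifs
    · exact one_mem _
    · exact zero_mem _

end Pool.Agent.Results.MP_2619d0_ag.FieldOfDefinition
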