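import Pool.Agent.Y196.Sp.JF

/-! Unirational parametrizations of smooth cubic hypersurfaces of dimension `n ≥ 5` and the linear
system of the first derivatives of the forms which give them. -/

set_option autoImplicit false

namespace Pool.Agent.Results.MP_2619d0_ag.JacobianSystemCubics

open MvPolynomial
open scoped ENNReal

/-- The tuple `G` of polynomials in `n` variables gives a dominant rational map from affine
(or projective) `n`-space to the cubic `F = 0`: `F` vanishes at `G`, and every form vanishing at `G`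
is divisible by `F`. -/
def Dominant {n : ℕ} (F : MvPolynomial (Fin (n + 2)) ℂ)
    (G : Fin (n + 2) → MvPolynomial (Fin n) ℂ) : Prop :=
  aeval G F = 0 ∧ ∀ (e : ℕ) (H : MvPolynomial (Fin (n + 2)) ℂ), H.IsHomogeneous e →
    aeval G H = 0 → F ∣ H

/-- the degree of the map given by `G`: the degree of the field of rational functions
`ℂ(t_1, …, t_n)` over its subfield generated over `ℂ` by all ratios `G i / G j`; if `G` is dominant,
then this subfield is the function field of the cubic -/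
noncomputable def mapDegree {m n : ℕ} (G : Fin m → MvPolynomial (Fin n) ℂ) : ℕ :=
  Module.finrank (IntermediateField.adjoin ℂ {z : FractionRing (MvPolynomial (Fin n) ℂ) |
    ∃ i j, z = algebraMap (MvPolynomial (Fin n) ℂ) (FractionRing (MvPolynomial (Fin n) ℂ)) (G i) /
      algebraMap (MvPolynomial (Fin n) ℂ) (FractionRing (MvPolynomial (Fin n) ℂ)) (G j)})
    (FractionRing (MvPolynomial (Fin n) ℂ))

/-- the hypersurface `F = 0` of dimension `n` is rational: it has a birational parametrization -/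
def IsRational {n : ℕ} (F : MvPolynomial (Fin (n + 2)) ℂ) : Prop :=
  ∃ G : Fin (n + 2) → MvPolynomial (Fin n) ℂ, Dominant F G ∧ mapDegree G = 1

/-- The linear system spanned by the polynomials `∂ G i / ∂ t_l`, `l = 1, …, n`, and
`k G i - ∑ t_l ∂ G i / ∂ t_l`. If the `G i` have degree at most `k`, then these are, in the chart
`t_0 = 1`, all first derivatives of the forms of degree `k` in `t_0, …, t_n` given by the `G i`
(the last ones are the derivatives with respect to `t_0`). -/
noncomputable def derivatives {m n : ℕ} (k : ℕ) (G : Fin m → MvPolynomial (Fin n) ℂ) :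
    Submodule ℂ (MvPolynomial (Fin n) ℂ) :=
  Submodule.span ℂ (Set.range (fun j => C (k : ℂ) * G j - ∑ l, X l * pderiv l (G j)) ∪
    Set.range fun x : Fin m × Fin n => pderiv x.2 (G x.1))

/-- The moving self-intersection number of a linear system `W` of polynomials in `n` variables:
`n!` times the growth, as `l` tends to infinity, of the dimension of the space spanned by the
products of `l` elements of `W` and one polynomial of degree at most `c`, divided by `l ^ n`, for
large `c`. It is the number of points, outside the base locus, at which `n` general members of `W`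
meet, i.e. the degree of the rational map given by `W` times the degree of its image. -/
noncomputable def selfInt {n : ℕ} (W : Submodule ℂ (MvPolynomial (Fin n) ℂ)) : ℝ≥0∞ :=
  ⨆ c : ℕ, Filter.limsup (fun l : ℕ => (n.factorial * Module.finrank ℂ
    (restrictTotalDegree (Fin n) ℂ c * W ^ l : Submodule ℂ (MvPolynomial (Fin n) ℂ)) : ℝ≥0∞) /
      (l : ℝ≥0∞) ^ n) Filter.atTop

/-- The forms of degree `k` in `t_0, …, t_n` given by the polynomials `G i` in the chart `t_0 = 1`
have multiplicity at least `m i` at the coordinate point number `i`, for `i = 0, …, n`: the `G i`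
have degree at most `k`, order at least `m 0` at the origin, and degree at most `k - m l` in the
variable `t_l` for `l = 1, …, n`. -/
def MultiplicityAt {r n : ℕ} (k : ℕ) (m : Fin (n + 1) → ℕ) (G : Fin r → MvPolynomial (Fin n) ℂ) :
    Prop :=
  ∀ j, ∀ a ∈ (G j).support, ∑ l, a l ≤ k ∧ m 0 ≤ ∑ l, a l ∧ ∀ l : Fin n, a l + m l.succ ≤ k

/-- Let `X` be a smooth cubic hypersurface of dimension `n ≥ 5`, and let `G` be a dominant rational
map from affine (or projective) `n`-space to `X` of degree `δ`, given by polynomials of degree at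
most `k`.
(1) Let `J` be the linear system of the first derivatives of the forms of degree `k` given by `G`.
Then `1 ≤ δ` and `3 * 2 ^ n * δ ≤ (n + 1) Jⁿ`, where `Jⁿ` is the moving self-intersection number,
which is at most `(k - 1)ⁿ`. In particular, `G` is birational and `X` is rational if
`(n + 1) Jⁿ < 6 * 2 ^ n`, and `(n + 1) Jⁿ < 3 * 2 ^ n` is impossible.
(2) If the forms given by `G` have multiplicity at least `m i` at the `i`-th coordinate point of
`ℙⁿ`, for `i = 0, …, n`, then
`3 * 2 ^ n * δ ≤ (n + 1) ∑ (-1) ^ |u| max(0, k - 1 - ∑_{i ∈ u} (k - m i)) ^ n`, the sum over all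
sets `u` of coordinate points. If `m i + m j ≤ k + 1` for `i ≠ j`, this says that
`3 * 2 ^ n * δ ≤ (n + 1) ((k - 1) ^ n - ∑ (m i - 1) ^ n)` (where `m i - 1` is to be replaced by `0`
if `m i = 0`). -/
theorem result (n : ℕ) (_hn : 5 ≤ n) (F : MvPolynomial (Fin (n + 2)) ℂ)
    (hF : F.IsHomogeneous 3)
    (hsmooth : ∀ z : Fin (n + 2) → ℂ, (∀ i, eval z (pderiv i F) = 0) → z = 0) (k : ℕ) (hk : 1 ≤ k)
    (G : Fin (n + 2) → MvPolynomial (Fin n) ℂ) (hG : ∀ i, (G i).totalDegree ≤ k)
    (hdom : Dominant F G) :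
    (1 ≤ mapDegree G ∧
      ((3 * 2 ^ n : ℕ) : ℝ≥0∞) * mapDegree G ≤ (n + 1) * selfInt (derivatives k G) ∧
      selfInt (derivatives k G) ≤ ((k - 1 : ℕ) : ℝ≥0∞) ^ n ∧
      ((n + 1) * selfInt (derivatives k G) < 2 * ((3 * 2 ^ n : ℕ) : ℝ≥0∞) →
        mapDegree G = 1 ∧ IsRational F) ∧
      ((3 * 2 ^ n : ℕ) : ℝ≥0∞) ≤ (n + 1) * selfInt (derivatives k G)) ∧
    (∀ m : Fin (n + 1) → ℕ, (∀ i, m i ≤ k) → MultiplicityAt k m G →
      ((3 * 2 ^ n : ℕ) : ℤ) * mapDegree G ≤ (n + 1) * ∑ u : Finset (Fin (n + 1)),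
        (-1) ^ u.card * ((k - 1 - ∑ i ∈ u, (k - m i) : ℕ) : ℤ) ^ n ∧
      ((∀ i j, i ≠ j → m i + m j ≤ k + 1) →
        ((3 * 2 ^ n : ℕ) : ℤ) * mapDegree G ≤
          (n + 1) * (((k - 1 : ℕ) : ℤ) ^ n - ∑ i, ((m i - 1 : ℕ) : ℤ) ^ n))) := by
  have hk0 : k ≠ 0 := by omega
  have hn0 : n ≠ 0 := by omega
  obtain ⟨h1, h2⟩ := Pool.Agent.Y196.Sp.jac_bound (n := n) (d := 3) hk0 (by omega) F hF hsmooth G
    hdom.1 hdom.2
  have h3 : 0 < Module.finrank (Pool.Agent.TH314.PD.ratioField fun i =>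
      algebraMap (MvPolynomial (Fin n) ℂ) (FractionRing (MvPolynomial (Fin n) ℂ)) (G i))
      (FractionRing (MvPolynomial (Fin n) ℂ)) := Module.finrank_pos
  have h3' : 1 ≤ mapDegree G := h3
  have h4 : ((3 * 2 ^ n : ℕ) : ℝ≥0∞) * mapDegree G ≤
      (n + 1) * selfInt (derivatives k G) := by
    have h5 : (mapDegree G : ℝ≥0∞) * (3 * (3 - 1) ^ n : ℕ) ≤
        (n + 1) * selfInt (derivatives k G) := h2
    refine le_trans (le_of_eq ?_) h5
    rw [mul_comm]
  have h6 : selfInt (derivatives k G) ≤ ((k - 1 : ℕ) : ℝ≥0∞) ^ n :=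
    Pool.Agent.Y196.Sp.mvi_jac_le (n := n) hn0 hk0 G hG
  refine ⟨⟨h3', h4, h6, fun h7 => ?_, ?_⟩, fun m hm hmult => ?_⟩
  · have h8 : mapDegree G = 1 := by
      by_contra hne
      have h8 : 2 ≤ mapDegree G := by omega
      have h9 : (2 : ℝ≥0∞) ≤ mapDegree G := by exact_mod_cast h8
      have h10 : 2 * ((3 * 2 ^ n : ℕ) : ℝ≥0∞) ≤ (n + 1) * selfInt (derivatives k G) := by
        calc 2 * ((3 * 2 ^ n : ℕ) : ℝ≥0∞) = ((3 * 2 ^ n : ℕ) : ℝ≥0∞) * 2 := mul_comm _ _
          _ ≤ ((3 * 2 ^ n : ℕ) : ℝ≥0∞) * (mapDegree G : ℝ≥0∞) := by gcongr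
          _ ≤ (n + 1) * selfInt (derivatives k G) := h4
      exact absurd (lt_of_le_of_lt h10 h7) (lt_irrefl _)
    exact ⟨h8, G, hdom, h8⟩
  · have h9 : (1 : ℝ≥0∞) ≤ mapDegree G := by exact_mod_cast h3'
    calc ((3 * 2 ^ n : ℕ) : ℝ≥0∞) = ((3 * 2 ^ n : ℕ) : ℝ≥0∞) * 1 := (mul_one _).symm
      _ ≤ ((3 * 2 ^ n : ℕ) : ℝ≥0∞) * (mapDegree G : ℝ≥0∞) := by gcongr
      _ ≤ (n + 1) * selfInt (derivatives k G) := h4
  · have h8 := Pool.Agent.Y196.Sp.mult_fin (n := n) (d := 3) hn0 hk0 (by omega) F hF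
      hsmooth G hdom.1 hdom.2 m hm hmult
    have h9 : (mapDegree G : ℤ) * (3 * (3 - 1) ^ n : ℕ) ≤
        (n + 1) * Pool.Agent.Y196.Sp.altF n (k - 1) fun i => k - m i := h8
    have h10 : ((3 * 2 ^ n : ℕ) : ℤ) * mapDegree G ≤
        (n + 1) * Pool.Agent.Y196.Sp.altF n (k - 1) fun i => k - m i := by
      rw [mul_comm]
      exact h9
    refine ⟨h10, fun hdis => ?_⟩
    rw [Pool.Agent.Y196.Sp.altF_disjoint (n := n) hn0 (by
      intro i j hij
      have := hdis i j hij
      have := hm i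
      have := hm j
      omega)] at h10
    have h11 : ∑ i, ((k - 1 - (k - m i) : ℕ) : ℤ) ^ n = ∑ i, ((m i - 1 : ℕ) : ℤ) ^ n := by
      refine Finset.sum_congr rfl fun i _ => ?_
      have := hm i
      congr 2
      omega
    rw [h11] at h10
    exact h10

end Pool.Agent.Results.MP_2619d0_ag.JacobianSystemCubics
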